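import Pool.Agent.H45.FD.Good
import Pool.Agent.H52.FD.Big

/-!
# Project FD, module Cub: the number of the good places with `(a : b : c) = (1 : ω : ω²)`

`s`: the sum of the local degrees over the good places above `p` (those which divide none of `a, b, c`),
`r`: the sum over the cubic ones among them.  If `PalK K p`, then `s = r + 3 k`, `r` is even, and `k` is
even unless `p` is a Wieferich prime; if `r = s` all the good places are cubic.
-/

open Polynomial NumberField IsDedekindDomain H9FC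

namespace H45FD

open H45KC Pool.Agent.H73.FD H52FD

section
variable {K : Type*} [Field K] [NumberField K] {p : ℕ} [Fact p.Prime]

private theorem Cub_over {q : ℕ} [Fact q.Prime] (P : Ideal (𝓞 K)) (hP : P.IsPrime) :
    P.LiesOver (Ideal.span {(q : ℤ)}) ↔ (q : 𝓞 K) ∈ P := by
  have hq : q.Prime := Fact.out
  constructor
  · intro h
    have h1 : (q : ℤ) ∈ P.under ℤ := by
      rw [← h.over]
      exact Ideal.mem_span_singleton_self _
    rw [Ideal.under_def, Ideal.mem_comap] at h1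
    rwa [map_natCast] at h1
  · intro h
    refine ⟨?_⟩
    have hmax : (Ideal.span {(q : ℤ)}).IsMaximal :=
      PrincipalIdealRing.isMaximal_of_irreducible (Nat.prime_iff_prime_int.1 hq).irreducible
    refine hmax.eq_of_le ?_ ?_
    · rw [Ideal.under_def]
      exact Ideal.comap_ne_top _ hP.ne_top
    · rw [Ideal.span_singleton_le_iff_mem, Ideal.under_def, Ideal.mem_comap, map_natCast]
      exact h

/-- a good place is cubic iff it divides `a'² + a' b' + b'²` (`a' = l a`, `b' = l b` integers, `a'` prime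
to the place) -/
private theorem Cub_iff {a b l : K} (hl : l ≠ 0) {a' b' : 𝓞 K} (ea : (a' : K) = l * a)
    (eb : (b' : K) = l * b) (v : HeightOneSpectrum (𝓞 K)) (ha : a' ∉ v.asIdeal) :
    v.valuation K (a ^ 2 + a * b + b ^ 2) < v.valuation K (a ^ 2) ↔
      a' ^ 2 + a' * b' + b' ^ 2 ∈ v.asIdeal := by
  have h5 : v.valuation K ((a' : 𝓞 K) : K) = 1 := by
    refine le_antisymm (v.valuation_le_one a') ?_
    by_contra h6
    exact ha ((HeightOneSpectrum.valuation_lt_one_iff_mem (K := K) v a').mp (not_le.mp h6))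
  have h6 : ((a' ^ 2 + a' * b' + b' ^ 2 : 𝓞 K) : K) = l ^ 2 * (a ^ 2 + a * b + b ^ 2) := by
    have h8 : ((a' ^ 2 + a' * b' + b' ^ 2 : 𝓞 K) : K)
        = (a' : K) ^ 2 + (a' : K) * (b' : K) + (b' : K) ^ 2 := by
      simp only [map_add, map_mul, map_pow]
    rw [h8, ea, eb]
    ring
  have hvl : v.valuation K (l ^ 2) ≠ 0 := by
    rw [Valuation.ne_zero_iff]
    exact pow_ne_zero 2 hl
  have h7 : v.valuation K (l ^ 2) * v.valuation K (a ^ 2) = 1 := by
    rw [← map_mul, ← mul_pow, ← ea, map_pow, h5, one_pow]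
  have h9 : v.valuation K (((a' ^ 2 + a' * b' + b' ^ 2 : 𝓞 K)) : K) < 1 ↔
      a' ^ 2 + a' * b' + b' ^ 2 ∈ v.asIdeal :=
    HeightOneSpectrum.valuation_lt_one_iff_mem (K := K) v _
  rw [← h9, h6, map_mul, ← h7]
  exact (mul_lt_mul_iff_right₀ (zero_lt_iff.2 hvl)).symm

/-- the indices at which `a² + ab + b²` vanishes are good -/
private theorem Cub_mem {a b c : 𝓞 K} (h : FSol K p a b c) (hcp : CopAt K p a b c)
    {Ω : Type*} [Field Ω] [CharP Ω p] (φ : 𝓞 K →+* Ω) (h0 : φ (a ^ 2 + a * b + b ^ 2) = 0) :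
    φ a ≠ 0 ∧ φ b ≠ 0 ∧ φ c ≠ 0 := by
  obtain ⟨h1, h2, h3⟩ := cop_hom h hcp φ
  have h4 := fsol_hom h φ
  simp only [map_add, map_mul, map_pow] at h0
  refine ⟨fun ha => ?_, fun hb => ?_, fun hc => ?_⟩
  · rw [ha] at h0
    have hb : φ b = 0 := by
      have : φ b ^ 2 = 0 := by linear_combination h0
      exact pow_eq_zero_iff (two_ne_zero) |>.1 this
    exact h1 ⟨ha, hb⟩
  · rw [hb] at h0
    have ha : φ a = 0 := by
      have : φ a ^ 2 = 0 := by linear_combination h0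
      exact pow_eq_zero_iff (two_ne_zero) |>.1 this
    exact h1 ⟨ha, hb⟩
  · rw [hc] at h4
    have ha : φ a = 0 := by
      have hb : φ b = - φ a := by linear_combination h4
      rw [hb] at h0
      have : φ a ^ 2 = 0 := by linear_combination h0
      exact pow_eq_zero_iff (two_ne_zero) |>.1 this
    exact h3 ⟨hc, ha⟩

/-- the number of the zeros of `X² - X + 1` among the residues -/
private theorem Cub_nroot {a b c : 𝓞 K} (h : FSol K p a b c) (hcp : CopAt K p a b c)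
    {ψ : Fin (Module.finrank ℚ K) → (𝓞 K →+* AlgebraicClosure (ZMod p))} (hψ : IsRedFam ψ) :
    nroot (fun i : {i // i ∈ ZZ ψ a b c} => -(ψ i b / ψ i a)) =
      mm K p (a ^ 2 + a * b + b ^ 2) := by
  classical
  rw [← card_zero_eq_mm p hψ, Nat.card_eq_fintype_card, Fintype.card_subtype, nroot]
  refine Finset.card_bij (fun i _ => (i : Fin (Module.finrank ℚ K))) ?_ ?_ ?_
  · rintro ⟨i, hi⟩ hi2
    rw [Finset.mem_filter] at hi2 ⊢
    refine ⟨Finset.mem_univ _, ?_⟩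
    have ha := ((mem_ZZ ψ a b c i).1 hi).1
    have h1 := hi2.2
    simp only [map_add, map_mul, map_pow]
    change (-(ψ i b / ψ i a)) ^ 2 - (-(ψ i b / ψ i a)) + 1 = 0 at h1
    field_simp at h1
    linear_combination h1
  · rintro ⟨i, hi⟩ _ ⟨j, hj⟩ _ hij
    exact Subtype.ext hij
  · intro i hi
    rw [Finset.mem_filter] at hi
    have h1 := Cub_mem h hcp (ψ i) hi.2
    refine ⟨⟨i, (mem_ZZ ψ a b c i).2 h1⟩, ?_, rfl⟩
    rw [Finset.mem_filter]
    refine ⟨Finset.mem_univ _, ?_⟩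
    have h2 := hi.2
    have ha := h1.1
    simp only [map_add, map_mul, map_pow] at h2
    change (-(ψ i b / ψ i a)) ^ 2 - (-(ψ i b / ψ i a)) + 1 = 0
    field_simp
    linear_combination h2

private theorem Cub_nroot_le {Ω ι : Type*} [Field Ω] [Fintype ι] (T : ι → Ω) :
    nroot T ≤ Fintype.card ι := by
  classical
  rw [nroot]
  exact Finset.card_le_univ _

/-- the counting form over `𝓞 K` -/
theorem main_count (hC : PalK K p) {a b c : 𝓞 K} (h : FSol K p a b c) (hcp : CopAt K p a b c)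
    (s : ℕ) (hsum : s + mm K p a + mm K p b + mm K p c = Module.finrank ℚ K) :
    Even (mm K p (a ^ 2 + a * b + b ^ 2)) ∧
      (∃ k, s = mm K p (a ^ 2 + a * b + b ^ 2) + 3 * k ∧ (¬ p ^ 2 ∣ 2 ^ (p - 1) - 1 → Even k)) ∧
      ∀ P : Ideal (𝓞 K), P.IsPrime → (p : 𝓞 K) ∈ P → a ∉ P → b ∉ P → c ∉ P →
        a ^ 2 + a * b + b ^ 2 ∉ P → mm K p (a ^ 2 + a * b + b ^ 2) < s := by
  classical
  obtain ⟨ψ, hψ⟩ := exists_redFam K p (AlgebraicClosure (ZMod p))
  have hcard := card_ZZ K p a b c h hcp hψ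
  have hs : (ZZ ψ a b c).card = s := by omega
  have hS := S3_of_palK hC h hcp hψ
  have hn := Cub_nroot h hcp hψ
  have h5 := five_le hC
  have he := nroot_even hS (three_ne (p := p) h5)
  have h3 := three_dvd hS
  have hle := Cub_nroot_le (fun i : {i // i ∈ ZZ ψ a b c} => -(ψ i b / ψ i a))
  rw [Fintype.card_coe, hs] at h3 hle
  rw [hn] at he h3 hle
  refine ⟨he, ?_, ?_⟩
  · obtain ⟨k, hk⟩ := h3
    refine ⟨k, by omega, fun hW => ?_⟩
    obtain ⟨s', hs', hsum'⟩ := main_even hC hW h hcp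
    have hss : s' = s := by omega
    subst hss
    rcases he with ⟨x, hx⟩
    rcases hs' with ⟨y, hy⟩
    rw [Nat.even_iff]
    omega
  · intro P hP hpP ha hb hc hx
    obtain ⟨i, hi⟩ := exists_redFam_ker hψ p P hP hpP
    have hmem : ∀ y : 𝓞 K, y ∉ P → ψ i y ≠ 0 := by
      intro y hy h0
      apply hy
      rw [← hi, RingHom.mem_ker]
      exact h0
    have hiZ : i ∈ ZZ ψ a b c := (mem_ZZ ψ a b c i).2 ⟨hmem a ha, hmem b hb, hmem c hc⟩
    rw [← hs, ← hn, ← Fintype.card_coe, nroot]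
    rw [← Finset.card_univ]
    refine Finset.card_lt_card ?_
    rw [Finset.filter_ssubset]
    refine ⟨⟨i, hiZ⟩, Finset.mem_univ _, ?_⟩
    intro h1
    apply hmem _ hx
    have ha' := hmem a ha
    change (-(ψ i b / ψ i a)) ^ 2 - (-(ψ i b / ψ i a)) + 1 = 0 at h1
    simp only [map_add, map_mul, map_pow]
    field_simp at h1
    linear_combination h1

/-- two cubic places for `p ≡ 1` modulo `3` -/
theorem main_two (hC : PalK K p) {a b c : 𝓞 K} (h : FSol K p a b c) (hcp : CopAt K p a b c)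
    (hp1 : p % 3 = 1) (P : Ideal (𝓞 K)) (hP : P.IsPrime) (hpP : (p : 𝓞 K) ∈ P)
    (hx : a ^ 2 + a * b + b ^ 2 ∈ P) :
    ∃ P' : Ideal (𝓞 K), P' ≠ P ∧ P'.IsPrime ∧ (p : 𝓞 K) ∈ P' ∧ (a ∉ P' ∧ b ∉ P' ∧ c ∉ P') ∧
      a ^ 2 + a * b + b ^ 2 ∈ P' := by
  classical
  obtain ⟨ψ, hψ⟩ := exists_redFam K p (AlgebraicClosure (ZMod p))
  have h5 := five_le hC
  have hS := S3_of_palK hC h hcp hψ
  obtain ⟨i, hi⟩ := exists_redFam_ker hψ p P hP hpP
  have hxi : ψ i (a ^ 2 + a * b + b ^ 2) = 0 := by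
    rw [← RingHom.mem_ker, hi]
    exact hx
  have hgi := Cub_mem h hcp (ψ i) hxi
  have hiZ : i ∈ ZZ ψ a b c := (mem_ZZ ψ a b c i).2 hgi
  obtain ⟨σ, hσ⟩ := hS.1
  obtain ⟨⟨j, hjZ⟩, hj⟩ : ∃ j : {i // i ∈ ZZ ψ a b c}, j = σ ⟨i, hiZ⟩ := ⟨_, rfl⟩
  have hgj := (mem_ZZ ψ a b c j).1 hjZ
  have hT : (-(ψ j b / ψ j a)) * (-(ψ i b / ψ i a)) = 1 := by
    have := hσ ⟨i, hiZ⟩
    rw [← hj] at this
    exact this
  have hbb : ψ j b * ψ i b = ψ j a * ψ i a := by
    have h1 := hgi.1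
    have h2 := hgj.1
    field_simp at hT
    linear_combination hT
  simp only [map_add, map_mul, map_pow] at hxi
  have hxj : ψ j (a ^ 2 + a * b + b ^ 2) = 0 := by
    simp only [map_add, map_mul, map_pow]
    have h1 : (ψ i b) ^ 2 * (ψ j a ^ 2 + ψ j a * ψ j b + ψ j b ^ 2) = 0 := by
      linear_combination (ψ j a) ^ 2 * hxi + (ψ j b * ψ i b + ψ j a * ψ i a + ψ j a * ψ i b) * hbb
    exact (mul_eq_zero.1 h1).resolve_left (pow_ne_zero 2 hgi.2.1)
  refine ⟨RingHom.ker (ψ j), ?_, RingHom.ker_isPrime _, ?_, ⟨?_, ?_, ?_⟩, ?_⟩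
  · intro h0
    -- a cube root of unity in the prime field
    obtain ⟨w, hw⟩ : ∃ w : ZMod p, w ^ 2 + w + 1 = 0 := by
      have h3 : 3 ∣ Fintype.card (ZMod p)ˣ := by
        rw [ZMod.card_units]
        omega
      obtain ⟨x, hx⟩ := exists_prime_orderOf_dvd_card 3 h3
      refine ⟨(x : ZMod p), ?_⟩
      have hx1 : (x : ZMod p) ^ 3 = 1 := by
        have := pow_orderOf_eq_one x
        rw [hx] at this
        rw [← Units.val_pow_eq_pow_val, this, Units.val_one]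
      have hx2 : (x : ZMod p) ≠ 1 := by
        intro h7
        have h8 : x = 1 := Units.ext h7
        rw [h8, orderOf_one] at hx
        omega
      have h9 : ((x : ZMod p) - 1) * ((x : ZMod p) ^ 2 + x + 1) = 0 := by
        linear_combination hx1
      exact (mul_eq_zero.mp h9).resolve_left (sub_ne_zero.mpr hx2)
    have hwΩ : ((w.val : ℕ) : AlgebraicClosure (ZMod p)) ^ 2 + (w.val : ℕ) + 1 = 0 := by
      have h7 : algebraMap (ZMod p) (AlgebraicClosure (ZMod p)) w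
          = ((w.val : ℕ) : AlgebraicClosure (ZMod p)) := by
        conv_lhs => rw [← ZMod.natCast_zmod_val w]
        rw [map_natCast]
      have h8 := congrArg (algebraMap (ZMod p) (AlgebraicClosure (ZMod p))) hw
      simp only [map_add, map_pow, map_one, map_zero] at h8
      rw [h7] at h8
      exact h8
    -- `b - w a` is in one of the kernels, so in both: `b² = a²`
    have hkey : ∀ i' j' : Fin (Module.finrank ℚ K), RingHom.ker (ψ i') = RingHom.ker (ψ j') →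
        ψ i' a ≠ 0 → ψ j' a ≠ 0 → ψ j' b * ψ i' b = ψ j' a * ψ i' a →
        ψ i' b = (w.val : ℕ) * ψ i' a → False := by
      intro i' j' hker ha1 ha2 hb1 hb2
      have h7 : b - (w.val : ℕ) * a ∈ RingHom.ker (ψ i') := by
        rw [RingHom.mem_ker, map_sub, map_mul, map_natCast, hb2, sub_self]
      rw [hker, RingHom.mem_ker, map_sub, map_mul, map_natCast] at h7
      have h8 : ψ j' b = (w.val : ℕ) * ψ j' a := by linear_combination h7
      rw [hb2, h8] at hb1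
      have h9 : ((w.val : ℕ) : AlgebraicClosure (ZMod p)) ^ 2 = 1 := by
        have h10 : (ψ i' a * ψ j' a) * (((w.val : ℕ) : AlgebraicClosure (ZMod p)) ^ 2 - 1) = 0 := by
          linear_combination hb1
        exact sub_eq_zero.1 ((mul_eq_zero.1 h10).resolve_left (mul_ne_zero ha1 ha2))
      have h11 : (3 : AlgebraicClosure (ZMod p)) = 0 := by
        linear_combination h9 - (((w.val : ℕ) : AlgebraicClosure (ZMod p)) - 2) * (hwΩ - h9)
      exact three_ne (p := p) h5 h11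
    rw [← hi] at h0
    have hcases : (ψ i b - (w.val : ℕ) * ψ i a) * (ψ i b - (-1 - (w.val : ℕ)) * ψ i a) = 0 := by
      linear_combination hxi - (ψ i a) ^ 2 * hwΩ
    rcases mul_eq_zero.1 hcases with h7 | h7
    · exact hkey i j h0.symm hgi.1 hgj.1 hbb (sub_eq_zero.1 h7)
    · refine hkey j i h0 hgj.1 hgi.1 (by rw [mul_comm, hbb, mul_comm]) ?_
      have h8 := sub_eq_zero.1 h7
      rw [h8] at hbb
      have h9 : ψ i a * ((-1 - (w.val : ℕ)) * ψ j b - ψ j a) = 0 := by linear_combination hbb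
      have h10 := (mul_eq_zero.1 h9).resolve_left hgi.1
      linear_combination (w.val : AlgebraicClosure (ZMod p)) * h10 + ψ j b * hwΩ
  · rw [RingHom.mem_ker, map_natCast, CharP.cast_eq_zero]
  · exact fun h0 => hgj.1 h0
  · exact fun h0 => hgj.2.1 h0
  · exact fun h0 => hgj.2.2 h0
  · rw [RingHom.mem_ker]
    exact hxj

end

section
variable {K : Type*} [Field K] [NumberField K] {p : ℕ} [Fact p.Prime]

/-- the sum over the cubic good places -/
private theorem Cub_sum {a b c l : K} (ha : a ≠ 0) (hb : b ≠ 0) (hc : c ≠ 0)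
    (h : a ^ p + b ^ p + c ^ p = 0) (hl : l ≠ 0) {a' b' c' : 𝓞 K} (ea : (a' : K) = l * a)
    (eb : (b' : K) = l * b) (ec : (c' : K) = l * c) (hF : FSol K p a' b' c')
    (hcp : CopAt K p a' b' c') :
    ∑ᶠ v ∈ {v : HeightOneSpectrum (𝓞 K) | (p : 𝓞 K) ∈ v.asIdeal ∧
        (v.valuation K a = v.valuation K b ∧ v.valuation K b = v.valuation K c) ∧
        v.valuation K (a ^ 2 + a * b + b ^ 2) < v.valuation K (a ^ 2)},
      v.asIdeal.ramificationIdx ℤ * v.asIdeal.inertiaDeg ℤ =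
      mm K p (a' ^ 2 + a' * b' + b' ^ 2) := by
  have hpp : p.Prime := Fact.out
  unfold mm
  refine finsum_mem_eq_of_bijOn (fun v : HeightOneSpectrum (𝓞 K) => v.asIdeal) ⟨?_, ?_, ?_⟩
    (fun v _ => rfl)
  · rintro v ⟨hv, hd, hx⟩
    rw [← not_dv_iff ha hb hc h v, dv_iff hl ea eb ec hcp v hv] at hd
    exact ⟨⟨v.isPrime, (Cub_over v.asIdeal v.isPrime).2 hv⟩, (Cub_iff hl ea eb v hd.1).1 hx⟩
  · intro v _ w _ hvw
    exact HeightOneSpectrum.ext hvw
  · rintro P ⟨⟨hP, hPq⟩, hx⟩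
    have hpP := (Cub_over P hP).1 hPq
    have hne : P ≠ ⊥ := by
      rintro rfl
      rw [Ideal.mem_bot, Nat.cast_eq_zero] at hpP
      exact hpp.ne_zero hpP
    obtain ⟨ψ, hψ⟩ := exists_redFam K p (AlgebraicClosure (ZMod p))
    obtain ⟨i, hi⟩ := exists_redFam_ker hψ p P hP hpP
    have hmem : ∀ y : 𝓞 K, ψ i y = 0 ↔ y ∈ P := by
      intro y
      rw [← hi, RingHom.mem_ker]
    have hg := Cub_mem hF hcp (ψ i) ((hmem _).2 hx)
    have hd : a' ∉ P ∧ b' ∉ P ∧ c' ∉ P := ⟨fun h0 => hg.1 ((hmem _).2 h0),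
      fun h0 => hg.2.1 ((hmem _).2 h0), fun h0 => hg.2.2 ((hmem _).2 h0)⟩
    refine ⟨⟨P, hP, hne⟩, ⟨hpP, ?_, (Cub_iff hl ea eb ⟨P, hP, hne⟩ hd.1).2 hx⟩, rfl⟩
    rw [← not_dv_iff ha hb hc h, dv_iff hl ea eb ec hcp _ hpP, dv_iff hl eb ec ea hcp.rot _ hpP,
      dv_iff hl ec ea eb hcp.rot.rot _ hpP]
    exact hd

/-- **The counting form.** -/
theorem fin_count (hC : PalK K p) (a b c : K) (ha : a ≠ 0) (hb : b ≠ 0) (hc : c ≠ 0)
    (h : a ^ p + b ^ p + c ^ p = 0) (s r : ℕ)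
    (hs : s = ∑ᶠ v ∈ {v : HeightOneSpectrum (𝓞 K) | (p : 𝓞 K) ∈ v.asIdeal ∧
        (v.valuation K a = v.valuation K b ∧ v.valuation K b = v.valuation K c)},
      v.asIdeal.ramificationIdx ℤ * v.asIdeal.inertiaDeg ℤ)
    (hr : r = ∑ᶠ v ∈ {v : HeightOneSpectrum (𝓞 K) | (p : 𝓞 K) ∈ v.asIdeal ∧
        (v.valuation K a = v.valuation K b ∧ v.valuation K b = v.valuation K c) ∧
        v.valuation K (a ^ 2 + a * b + b ^ 2) < v.valuation K (a ^ 2)},
      v.asIdeal.ramificationIdx ℤ * v.asIdeal.inertiaDeg ℤ) :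
    Even r ∧ (∃ k, s = r + 3 * k ∧ (¬ p ^ 2 ∣ 2 ^ (p - 1) - 1 → Even k)) ∧
      ∀ v : HeightOneSpectrum (𝓞 K), (p : 𝓞 K) ∈ v.asIdeal →
        (v.valuation K a = v.valuation K b ∧ v.valuation K b = v.valuation K c) →
        ¬ v.valuation K (a ^ 2 + a * b + b ^ 2) < v.valuation K (a ^ 2) → r < s := by
  obtain ⟨l, a', b', c', hl, ea, eb, ec, hF, hcp, -⟩ := exists_norm K p p a b c ha hb hc h
  have hg := good_eq a b c ha hb hc h
  rw [← hs, nu_eq_mm hl ea eb ec hcp, nu_eq_mm hl eb ec ea hcp.rot,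
    nu_eq_mm hl ec ea eb hcp.rot.rot] at hg
  obtain ⟨g1, g2, g3⟩ := main_count hC hF hcp s hg
  rw [Cub_sum ha hb hc h hl ea eb ec hF hcp] at hr
  rw [hr]
  refine ⟨g1, g2, fun v hv hd hx => ?_⟩
  rw [← not_dv_iff ha hb hc h v, dv_iff hl ea eb ec hcp v hv, dv_iff hl eb ec ea hcp.rot v hv,
    dv_iff hl ec ea eb hcp.rot.rot v hv] at hd
  exact g3 v.asIdeal v.isPrime hv hd.1 hd.2.1 hd.2.2 fun h0 =>
    hx ((Cub_iff hl ea eb v hd.1).2 h0)

/-- a cubic place has even residue degree if `p ≡ 2` modulo `3` -/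
theorem cub_even (hC : PalK K p) (a b c : K) (ha : a ≠ 0) (hb : b ≠ 0) (hc : c ≠ 0)
    (h : a ^ p + b ^ p + c ^ p = 0) (v : HeightOneSpectrum (𝓞 K))
    (hv : (p : 𝓞 K) ∈ v.asIdeal)
    (hd : v.valuation K a = v.valuation K b ∧ v.valuation K b = v.valuation K c)
    (hx : v.valuation K (a ^ 2 + a * b + b ^ 2) < v.valuation K (a ^ 2)) (hp2 : p % 3 = 2) :
    Even (v.asIdeal.inertiaDeg ℤ) := by
  obtain ⟨l, a', b', c', hl, ea, eb, ec, hF, hcp, -⟩ := exists_norm K p p a b c ha hb hc h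
  rw [← not_dv_iff ha hb hc h v, dv_iff hl ea eb ec hcp v hv] at hd
  exact even_inertia v.asIdeal v.isPrime hv (five_le hC) hp2 a' b' hd.1
    ((Cub_iff hl ea eb v hd.1).1 hx)

/-- a second cubic place if `p ≡ 1` modulo `3` -/
theorem cub_snd (hC : PalK K p) (a b c : K) (ha : a ≠ 0) (hb : b ≠ 0) (hc : c ≠ 0)
    (h : a ^ p + b ^ p + c ^ p = 0) (hp1 : p % 3 = 1) (v : HeightOneSpectrum (𝓞 K))
    (hv : (p : 𝓞 K) ∈ v.asIdeal)
    (hd : v.valuation K a = v.valuation K b ∧ v.valuation K b = v.valuation K c)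
    (hx : v.valuation K (a ^ 2 + a * b + b ^ 2) < v.valuation K (a ^ 2)) :
    ∃ v' : HeightOneSpectrum (𝓞 K), v' ≠ v ∧ (p : 𝓞 K) ∈ v'.asIdeal ∧
      (v'.valuation K a = v'.valuation K b ∧ v'.valuation K b = v'.valuation K c) ∧
      v'.valuation K (a ^ 2 + a * b + b ^ 2) < v'.valuation K (a ^ 2) := by
  have hpp : p.Prime := Fact.out
  obtain ⟨l, a', b', c', hl, ea, eb, ec, hF, hcp, -⟩ := exists_norm K p p a b c ha hb hc h
  rw [← not_dv_iff ha hb hc h v, dv_iff hl ea eb ec hcp v hv] at hd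
  obtain ⟨P', hne, hP', hpP', hd', hx'⟩ := main_two hC hF hcp hp1 v.asIdeal v.isPrime hv
    ((Cub_iff hl ea eb v hd.1).1 hx)
  have hbot : P' ≠ ⊥ := by
    rintro rfl
    rw [Ideal.mem_bot, Nat.cast_eq_zero] at hpP'
    exact hpp.ne_zero hpP'
  refine ⟨⟨P', hP', hbot⟩, fun h0 => hne (congrArg HeightOneSpectrum.asIdeal h0), hpP', ?_,
    (Cub_iff hl ea eb ⟨P', hP', hbot⟩ hd'.1).2 hx'⟩
  rw [← not_dv_iff ha hb hc h, dv_iff hl ea eb ec hcp _ hpP', dv_iff hl eb ec ea hcp.rot _ hpP',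
    dv_iff hl ec ea eb hcp.rot.rot _ hpP']
  exact hd'

/-- two cubic places if `p ≡ 1` modulo `3` and there is one -/
theorem cub_two (hC : PalK K p) (a b c : K) (ha : a ≠ 0) (hb : b ≠ 0) (hc : c ≠ 0)
    (h : a ^ p + b ^ p + c ^ p = 0) (r : ℕ)
    (hr : r = ∑ᶠ v ∈ {v : HeightOneSpectrum (𝓞 K) | (p : 𝓞 K) ∈ v.asIdeal ∧
        (v.valuation K a = v.valuation K b ∧ v.valuation K b = v.valuation K c) ∧
        v.valuation K (a ^ 2 + a * b + b ^ 2) < v.valuation K (a ^ 2)},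
      v.asIdeal.ramificationIdx ℤ * v.asIdeal.inertiaDeg ℤ)
    (hr0 : 0 < r) (hp1 : p % 3 = 1) :
    ∃ v v' : HeightOneSpectrum (𝓞 K), v ≠ v' ∧ (p : 𝓞 K) ∈ v.asIdeal ∧ (p : 𝓞 K) ∈ v'.asIdeal ∧
      ((v.valuation K a = v.valuation K b ∧ v.valuation K b = v.valuation K c) ∧
        v.valuation K (a ^ 2 + a * b + b ^ 2) < v.valuation K (a ^ 2)) ∧
      ((v'.valuation K a = v'.valuation K b ∧ v'.valuation K b = v'.valuation K c) ∧
        v'.valuation K (a ^ 2 + a * b + b ^ 2) < v'.valuation K (a ^ 2)) := by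
  obtain ⟨v, ⟨hv, hd, hx⟩, -⟩ : ∃ v ∈ {v : HeightOneSpectrum (𝓞 K) | (p : 𝓞 K) ∈ v.asIdeal ∧
        (v.valuation K a = v.valuation K b ∧ v.valuation K b = v.valuation K c) ∧
        v.valuation K (a ^ 2 + a * b + b ^ 2) < v.valuation K (a ^ 2)},
      v.asIdeal.ramificationIdx ℤ * v.asIdeal.inertiaDeg ℤ ≠ 0 := by
    by_contra hcon
    push Not at hcon
    rw [finsum_mem_congr rfl hcon, finsum_mem_zero] at hr
    omega
  obtain ⟨v', hne, hv', hd', hx'⟩ := cub_snd hC a b c ha hb hc h hp1 v hv hd hx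
  exact ⟨v, v', hne.symm, hv, hv', ⟨hd, hx⟩, ⟨hd', hx'⟩⟩

end

end H45FD
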