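import Pool.Agent.H45.KC.KVal
import Pool.Agent.H9.FC.LocDeg

/-!
# Project FD, module Good: the sum of the local degrees over the places above `p` with equal valuations
-/

open Polynomial NumberField H9FC H45KC IsDedekindDomain

namespace H45FD

private theorem Good_over {K : Type*} [Field K] [NumberField K] {q : ℕ} [Fact q.Prime]
    (P : Ideal (𝓞 K)) (hP : P.IsPrime) :
    P.LiesOver (Ideal.span {(q : ℤ)}) ↔ (q : 𝓞 K) ∈ P := by
  have hq : q.Prime := Fact.out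
  constructor
  · intro h
    have h1 : (q : ℤ) ∈ P.under ℤ := by
      rw [← h.over]
      exact Ideal.mem_span_singleton_self _
    rw [Ideal.under_def, Ideal.mem_comap] at h1
    rwa [map_natCast] at h1
  · intro h
    refine ⟨?_⟩
    have hmax : (Ideal.span {(q : ℤ)}).IsMaximal :=
      PrincipalIdealRing.isMaximal_of_irreducible (Nat.prime_iff_prime_int.1 hq).irreducible
    refine hmax.eq_of_le ?_ ?_
    · rw [Ideal.under_def]
      exact Ideal.comap_ne_top _ hP.ne_top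
    · rw [Ideal.span_singleton_le_iff_mem, Ideal.under_def, Ideal.mem_comap, map_natCast]
      exact h

/-- the local degrees of all the primes above `p` -/
private theorem Good_total (K : Type*) [Field K] [NumberField K] (p : ℕ) [Fact p.Prime] :
    ∑ᶠ P ∈ Ideal.primesOver (Ideal.span {(p : ℤ)}) (𝓞 K),
      P.ramificationIdx ℤ * P.inertiaDeg ℤ = Module.finrank ℚ K := by
  obtain ⟨ψ, hψ⟩ := exists_redFam K p (AlgebraicClosure (ZMod p))
  have h1 := card_zero_eq_mm p hψ 0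
  have h2 : Nat.card {i : Fin (Module.finrank ℚ K) // ψ i 0 = 0} = Module.finrank ℚ K := by
    simp only [map_zero]
    rw [Nat.card_eq_fintype_card, Fintype.card_subtype, Finset.filter_true, Finset.card_univ,
      Fintype.card_fin]
  have h3 : {P : Ideal (𝓞 K) | P ∈ Ideal.primesOver (Ideal.span {(p : ℤ)}) (𝓞 K) ∧ (0 : 𝓞 K) ∈ P}
      = Ideal.primesOver (Ideal.span {(p : ℤ)}) (𝓞 K) := by
    ext P
    exact ⟨fun h => h.1, fun h => ⟨h, P.zero_mem⟩⟩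
  rw [← h2, h1, mm, h3]

/-- the sum of the local degrees over the places with equal valuations -/
theorem good_eq {K : Type*} [Field K] [NumberField K] {p : ℕ} [Fact p.Prime] (a b c : K)
    (ha : a ≠ 0) (hb : b ≠ 0) (hc : c ≠ 0) (h : a ^ p + b ^ p + c ^ p = 0) :
    (∑ᶠ v ∈ {v : HeightOneSpectrum (𝓞 K) | (p : 𝓞 K) ∈ v.asIdeal ∧
        v.valuation K a = v.valuation K b ∧ v.valuation K b = v.valuation K c},
      v.asIdeal.ramificationIdx ℤ * v.asIdeal.inertiaDeg ℤ)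
      + nu K p a b c + nu K p b c a + nu K p c a b = Module.finrank ℚ K := by
  have hpp : p.Prime := Fact.out
  obtain ⟨l, a', b', c', hl, ea, eb, ec, hF, hcp, -⟩ := exists_norm K p p a b c ha hb hc h
  rw [nu_eq_mm hl ea eb ec hcp, nu_eq_mm hl eb ec ea hcp.rot, nu_eq_mm hl ec ea eb hcp.rot.rot,
    ← Good_total K p]
  set F : Ideal (𝓞 K) → ℕ := fun P => P.ramificationIdx ℤ * P.inertiaDeg ℤ with hFd
  set O : Set (Ideal (𝓞 K)) := Ideal.primesOver (Ideal.span {(p : ℤ)}) (𝓞 K) with hO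
  set G : Set (Ideal (𝓞 K)) := {P | P ∈ O ∧ (a' ∉ P ∧ b' ∉ P ∧ c' ∉ P)} with hG
  have hpO : ∀ P ∈ O, P.IsPrime ∧ (p : 𝓞 K) ∈ P := fun P hP =>
    ⟨hP.1, (Good_over P hP.1).1 hP.2⟩
  have hOp : ∀ P : Ideal (𝓞 K), P.IsPrime → (p : 𝓞 K) ∈ P → P ∈ O := fun P h1 h2 =>
    ⟨h1, (Good_over P h1).2 h2⟩
  have hOfin : O.Finite := by
    haveI hpr : (Ideal.span {(p : ℤ)}).IsPrime :=
      (Ideal.span_singleton_prime (by exact_mod_cast hpp.ne_zero)).2
        (Nat.prime_iff_prime_int.1 hpp)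
    exact Algebra.QuasiFinite.finite_primesOver (S := 𝓞 K) (Ideal.span {(p : ℤ)})
  -- the good places
  have h1 : (∑ᶠ v ∈ {v : HeightOneSpectrum (𝓞 K) | (p : 𝓞 K) ∈ v.asIdeal ∧
        v.valuation K a = v.valuation K b ∧ v.valuation K b = v.valuation K c},
      v.asIdeal.ramificationIdx ℤ * v.asIdeal.inertiaDeg ℤ) = ∑ᶠ P ∈ G, F P := by
    refine finsum_mem_eq_of_bijOn (fun v : HeightOneSpectrum (𝓞 K) => v.asIdeal) ⟨?_, ?_, ?_⟩
      (fun v _ => rfl)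
    · rintro v ⟨hv, hd⟩
      rw [← not_dv_iff ha hb hc h v, dv_iff hl ea eb ec hcp v hv, dv_iff hl eb ec ea hcp.rot v hv,
        dv_iff hl ec ea eb hcp.rot.rot v hv] at hd
      exact ⟨hOp _ v.isPrime hv, hd⟩
    · intro v _ w _ hvw
      exact HeightOneSpectrum.ext hvw
    · rintro P ⟨hP, hd⟩
      obtain ⟨hP1, hpP⟩ := hpO P hP
      have hne : P ≠ ⊥ := by
        rintro rfl
        rw [Ideal.mem_bot, Nat.cast_eq_zero] at hpP
        exact hpp.ne_zero hpP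
      refine ⟨⟨P, hP1, hne⟩, ⟨hpP, ?_⟩, rfl⟩
      rw [← not_dv_iff ha hb hc h, dv_iff hl ea eb ec hcp _ hpP, dv_iff hl eb ec ea hcp.rot _ hpP,
        dv_iff hl ec ea eb hcp.rot.rot _ hpP]
      exact hd
  rw [h1]
  have hpow : ∀ P ∈ O, ∀ x : 𝓞 K, x ^ p ∈ P → x ∈ P := fun P hP x hx =>
    (hpO P hP).1.mem_of_pow_mem p hx
  have hsol := hF.2.2.2
  have hab : ∀ P ∈ O, a' ∈ P → b' ∈ P → c' ∈ P := by
    intro P hP h2 h3
    refine hpow P hP _ ?_
    have h4 : c' ^ p = - (a' ^ p + b' ^ p) := by linear_combination hsol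
    rw [h4]
    exact P.neg_mem (P.add_mem (P.pow_mem_of_mem h2 p hpp.pos) (P.pow_mem_of_mem h3 p hpp.pos))
  have hbc : ∀ P ∈ O, b' ∈ P → c' ∈ P → a' ∈ P := by
    intro P hP h2 h3
    refine hpow P hP _ ?_
    have h4 : a' ^ p = - (b' ^ p + c' ^ p) := by linear_combination hsol
    rw [h4]
    exact P.neg_mem (P.add_mem (P.pow_mem_of_mem h2 p hpp.pos) (P.pow_mem_of_mem h3 p hpp.pos))
  have hca : ∀ P ∈ O, c' ∈ P → a' ∈ P → b' ∈ P := by
    intro P hP h2 h3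
    refine hpow P hP _ ?_
    have h4 : b' ^ p = - (c' ^ p + a' ^ p) := by linear_combination hsol
    rw [h4]
    exact P.neg_mem (P.add_mem (P.pow_mem_of_mem h2 p hpp.pos) (P.pow_mem_of_mem h3 p hpp.pos))
  have hno : ∀ P ∈ O, ¬ (a' ∈ P ∧ b' ∈ P ∧ c' ∈ P) := fun P hP => hcp P (hpO P hP).1 (hpO P hP).2
  have hmm : ∀ x : 𝓞 K, mm K p x = ∑ᶠ P ∈ {P | P ∈ O ∧ x ∈ P}, F P := fun x => rfl
  have hsub : ∀ q : Ideal (𝓞 K) → Prop, ({P | P ∈ O ∧ q P} : Set (Ideal (𝓞 K))).Finite := fun q =>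
    hOfin.subset fun P hP => hP.1
  have hun : O = ((G ∪ {P | P ∈ O ∧ a' ∈ P}) ∪ {P | P ∈ O ∧ b' ∈ P}) ∪ {P | P ∈ O ∧ c' ∈ P} := by
    ext P
    simp only [hG, Set.mem_union, Set.mem_setOf_eq]
    tauto
  rw [hmm, hmm, hmm]
  conv_rhs => rw [hun]
  rw [finsum_mem_union ?_ (((hsub _).union (hsub _)).union (hsub _)) (hsub _),
    finsum_mem_union ?_ ((hsub _).union (hsub _)) (hsub _),
    finsum_mem_union ?_ (hsub _) (hsub _)]
  · rw [Set.disjoint_left]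
    rintro P ⟨hP, h2, -, -⟩ ⟨-, h3⟩
    exact h2 h3
  · rw [Set.disjoint_left]
    rintro P (⟨hP, -, h2, -⟩ | ⟨hP, h2⟩) ⟨-, h3⟩
    · exact h2 h3
    · exact hno P hP ⟨h2, h3, hab P hP h2 h3⟩
  · rw [Set.disjoint_left]
    rintro P ((⟨hP, -, -, h2⟩ | ⟨hP, h2⟩) | ⟨hP, h2⟩) ⟨-, h3⟩
    · exact h2 h3
    · exact hno P hP ⟨h2, hca P hP h3 h2, h3⟩
    · exact hno P hP ⟨hbc P hP h2 h3, h2, h3⟩

end H45FD
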