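import Pool.Agent.FD.Main
import Pool.Agent.H77.FD.KumLL
import Pool.Agent.H87.FD.Sym3
import Pool.Agent.H45.KC.KMain
import Pool.Agent.H45.KC.KVal

/-!
# Project FD, module Inv: the three symmetries of the residues for `¬ FDBad n p`

`inv_enum`: any enumeration of the places dividing none of `a, b, c` gives a family stable under
inversion.  `inv_ZZ` : the family and its two rotations.  `inv_first`: the first case, for solutions in
`K`: after scaling, for EVERY reduction family `ψ` the values `T k = -ψ k b / ψ k a`, `k` any index,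
satisfy the three symmetries.
-/

open Polynomial NumberField H9FC H45KC Pool.Agent.FD IsDedekindDomain

namespace H45FD

section
variable {K : Type*} [Field K] [NumberField K] {p : ℕ} [Fact p.Prime] {a b c : 𝓞 K}
  {Ω : Type} [Field Ω] [CharP Ω p] {ψ : Fin (Module.finrank ℚ K) → (𝓞 K →+* Ω)}

/-- any enumeration `f` of the places dividing none of `a, b, c` -/
theorem inv_enum (hp : 2 * Module.finrank ℚ K + 3 ≤ p)
    (hn : ¬ FDBad (Module.finrank ℚ K) p) (h : FSol K p a b c) (hcp : CopAt K p a b c)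
    (hψ : IsRedFam ψ) {m : ℕ} (f : Fin m → Fin (Module.finrank ℚ K)) (hf1 : Function.Injective f)
    (hf2 : ∀ v, f v ∈ ZZ ψ a b c) (hf3 : ∀ i ∈ ZZ ψ a b c, ∃ v, f v = i) :
    H87FD.Inv (fun v => - ψ (f v) b / ψ (f v) a) := by
  by_contra hno
  apply hn
  have hm : m ≤ Module.finrank ℚ K := by
    have := Fintype.card_le_of_injective f hf1
    rwa [Fintype.card_fin, Fintype.card_fin] at this
  have hne : ∀ v, ψ (f v) a ≠ 0 ∧ ψ (f v) b ≠ 0 ∧ ψ (f v) c ≠ 0 := fun v =>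
    (mem_ZZ ψ a b c (f v)).1 (hf2 v)
  refine ⟨m, hm, Ω, inferInstance, inferInstance,
    fun v => - ψ (f v) b / ψ (f v) a, fun v => div_ne_zero (neg_ne_zero.2 (hne v).2.1) (hne v).1,
    fun v h1 => ?_, hno, ?_⟩
  · change - ψ (f v) b / ψ (f v) a = 1 at h1
    rw [div_eq_iff (hne v).1, one_mul] at h1
    have h2 := fsol_hom h (ψ (f v))
    rw [← h1] at h2
    exact (hne v).2.2 (by linear_combination h2)
  · intro i hi hi2 hip
    by_cases hB : (p : ℤ) ∣ (_root_.bernoulli (p - 1 - i)).num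
    · exact Or.inl hB
    · right
      have hk := H77FD.kum_ZZ hp h hcp hψ i hi hi2 hip hB
      rw [← hk]
      exact Finset.sum_bij (fun v _ => f v) (fun v _ => hf2 v) (fun u _ v _ huv => hf1 huv)
        (fun i hi => by
          obtain ⟨v, hv⟩ := hf3 i hi
          exact ⟨v, Finset.mem_univ _, hv⟩) (fun _ _ => rfl)

/-- the three symmetries, for any enumeration -/
theorem inv_enum_three (hp : 2 * Module.finrank ℚ K + 3 ≤ p)
    (hn : ¬ FDBad (Module.finrank ℚ K) p) (h : FSol K p a b c) (hcp : CopAt K p a b c)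
    (hψ : IsRedFam ψ) {m : ℕ} (f : Fin m → Fin (Module.finrank ℚ K)) (hf1 : Function.Injective f)
    (hf2 : ∀ v, f v ∈ ZZ ψ a b c) (hf3 : ∀ i ∈ ZZ ψ a b c, ∃ v, f v = i) :
    H87FD.Inv (fun v => - ψ (f v) b / ψ (f v) a) ∧
      H87FD.Inv (fun v => 1 - 1 / (- ψ (f v) b / ψ (f v) a)) ∧
      H87FD.Inv (fun v => 1 / (1 - - ψ (f v) b / ψ (f v) a)) := by
  have hne : ∀ v, ψ (f v) a ≠ 0 ∧ ψ (f v) b ≠ 0 ∧ ψ (f v) c ≠ 0 := fun v =>
    (mem_ZZ ψ a b c (f v)).1 (hf2 v)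
  have hs : ∀ v, ψ (f v) c = - ψ (f v) a - ψ (f v) b := fun v => by
    linear_combination fsol_hom h (ψ (f v))
  refine ⟨inv_enum hp hn h hcp hψ f hf1 hf2 hf3, ?_, ?_⟩
  · have h1 := inv_enum (ψ := ψ) hp hn h.rot hcp.rot hψ f hf1 (by rw [ZZ_rot]; exact hf2)
      (by rw [ZZ_rot]; exact hf3)
    convert h1 using 2 with v
    have h2 := (hne v).1
    have h3 := (hne v).2.1
    rw [hs v]
    field_simp
    ring
  · have h1 := inv_enum (ψ := ψ) hp hn h.rot.rot hcp.rot.rot hψ f hf1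
      (by rw [ZZ_rot, ZZ_rot]; exact hf2) (by rw [ZZ_rot, ZZ_rot]; exact hf3)
    convert h1 using 2 with v
    have h2 := (hne v).1
    have h3 := (hne v).2.2
    have h4 : (1 : Ω) - - ψ (f v) b / ψ (f v) a = - ψ (f v) c / ψ (f v) a := by
      rw [hs v]
      field_simp
      ring
    rw [h4]
    field_simp

/-- the enumeration of the places dividing none of `a, b, c`, with the three symmetries -/
theorem inv_ZZ (hp : 2 * Module.finrank ℚ K + 3 ≤ p)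
    (hn : ¬ FDBad (Module.finrank ℚ K) p) (h : FSol K p a b c) (hcp : CopAt K p a b c)
    (hψ : IsRedFam ψ) :
    ∃ f : Fin (ZZ ψ a b c).card → Fin (Module.finrank ℚ K), Function.Injective f ∧
      (∀ v, f v ∈ ZZ ψ a b c) ∧ (∀ i ∈ ZZ ψ a b c, ∃ v, f v = i) ∧
      H87FD.Inv (fun v => - ψ (f v) b / ψ (f v) a) ∧
      H87FD.Inv (fun v => 1 - 1 / (- ψ (f v) b / ψ (f v) a)) ∧
      H87FD.Inv (fun v => 1 / (1 - - ψ (f v) b / ψ (f v) a)) := by
  classical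
  let φ := (ZZ ψ a b c).equivFin.symm
  have hf1 : Function.Injective (fun v => (φ v : Fin (Module.finrank ℚ K))) :=
    fun x y hxy => φ.injective (Subtype.ext hxy)
  have hf2 : ∀ v, (φ v : Fin (Module.finrank ℚ K)) ∈ ZZ ψ a b c := fun v => (φ v).2
  have hf3 : ∀ i ∈ ZZ ψ a b c, ∃ v, (φ v : Fin (Module.finrank ℚ K)) = i := fun i hi =>
    ⟨φ.symm ⟨i, hi⟩, by simp⟩
  exact ⟨fun v => φ v, hf1, hf2, hf3, inv_enum_three hp hn h hcp hψ _ hf1 hf2 hf3⟩

end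

/-- the first case for solutions in `K`: scaling to integers prime to `p`, and the three symmetries for
every reduction family -/
theorem inv_first.{u, w} {K : Type u} [Field K] [NumberField K] {p : ℕ} [Fact p.Prime]
    (hp : 2 * Module.finrank ℚ K + 3 ≤ p) (hn : ¬ FDBad (Module.finrank ℚ K) p)
    {a b c : K} (ha : a ≠ 0) (hb : b ≠ 0) (hc : c ≠ 0) (h : a ^ p + b ^ p + c ^ p = 0)
    (hv : ∀ v : HeightOneSpectrum (𝓞 K), (p : 𝓞 K) ∈ v.asIdeal →
      v.valuation K a = v.valuation K b ∧ v.valuation K b = v.valuation K c) :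
    ∃ (l : K) (a' b' c' : 𝓞 K), l ≠ 0 ∧ (a' : K) = l * a ∧ (b' : K) = l * b ∧ (c' : K) = l * c ∧
      FSol K p a' b' c' ∧ CopAt K p a' b' c' ∧
      (∀ P : Ideal (𝓞 K), P.IsPrime → (p : 𝓞 K) ∈ P → a' ∉ P ∧ b' ∉ P ∧ c' ∉ P) ∧
      (∀ (Ω : Type w) [Field Ω] [CharP Ω p] (φ : 𝓞 K →+* Ω), φ a' ≠ 0 ∧ φ b' ≠ 0 ∧ φ c' ≠ 0) ∧
      ∀ (Ω : Type) [Field Ω] [CharP Ω p] (ψ : Fin (Module.finrank ℚ K) → (𝓞 K →+* Ω)),
        IsRedFam ψ → H87FD.Inv (fun k => - ψ k b' / ψ k a') ∧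
          H87FD.Inv (fun k => 1 - 1 / (- ψ k b' / ψ k a')) ∧
          H87FD.Inv (fun k => 1 / (1 - - ψ k b' / ψ k a')) := by
  have hpp : p.Prime := Fact.out
  obtain ⟨l, a', b', c', hl, ea, eb, ec, hF, hcp, -⟩ := exists_norm K p p a b c ha hb hc h
  have hP : ∀ P : Ideal (𝓞 K), P.IsPrime → (p : 𝓞 K) ∈ P → a' ∉ P ∧ b' ∉ P ∧ c' ∉ P := by
    intro P hP hpP
    have hne : P ≠ ⊥ := by
      rintro rfl
      rw [Ideal.mem_bot, Nat.cast_eq_zero] at hpP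
      exact hpp.ne_zero hpP
    obtain ⟨h1, h2, h3⟩ := (not_dv_iff ha hb hc h ⟨P, hP, hne⟩).2 (hv ⟨P, hP, hne⟩ hpP)
    rw [dv_iff hl ea eb ec hcp _ hpP] at h1
    rw [dv_iff hl eb ec ea hcp.rot _ hpP] at h2
    rw [dv_iff hl ec ea eb hcp.rot.rot _ hpP] at h3
    exact ⟨h1, h2, h3⟩
  have hφ : ∀ (Ω : Type w) [Field Ω] [CharP Ω p] (φ : 𝓞 K →+* Ω), φ a' ≠ 0 ∧ φ b' ≠ 0 ∧ φ c' ≠ 0 := by
    intro Ω _ _ φ
    have hpk : (p : 𝓞 K) ∈ RingHom.ker φ := by
      rw [RingHom.mem_ker, map_natCast]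
      exact CharP.cast_eq_zero Ω p
    obtain ⟨h1, h2, h3⟩ := hP (RingHom.ker φ) (RingHom.ker_isPrime φ) hpk
    exact ⟨fun h0 => h1 h0, fun h0 => h2 h0, fun h0 => h3 h0⟩
  refine ⟨l, a', b', c', hl, ea, eb, ec, hF, hcp, hP, hφ, ?_⟩
  intro Ω _ _ ψ hψ
  have hZ : ∀ k, k ∈ ZZ ψ a' b' c' := fun k => (mem_ZZ ψ a' b' c' k).2 (by
    have hpk : (p : 𝓞 K) ∈ RingHom.ker (ψ k) := by
      rw [RingHom.mem_ker, map_natCast]
      exact CharP.cast_eq_zero Ω p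
    obtain ⟨h1, h2, h3⟩ := hP (RingHom.ker (ψ k)) (RingHom.ker_isPrime (ψ k)) hpk
    exact ⟨fun h0 => h1 h0, fun h0 => h2 h0, fun h0 => h3 h0⟩)
  exact inv_enum_three hp hn hF hcp hψ id Function.injective_id hZ (fun i _ => ⟨i, rfl⟩)

end H45FD
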