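import Pool.Agent.FD.Main
import Pool.Agent.H73.FD.KMain
import Pool.Agent.H77.FD.KumG
import Pool.Agent.H87.FD.Bridge

/-!
# Project FD, module Link: `¬ FDBad n p` gives the symmetry `PalK K p` for all `K` of degree `n`

`pal_of_inv`: a family of quotients `- B v / A v` stable under inversion gives the product identity.
`stable_of_not_bad`: if `p` is not in `F_n`, the residues of a solution at the places which divide none
of `a, b, c` are stable under inversion.
-/

open Polynomial NumberField H9FC H45KC Pool.Agent.FD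

namespace H45FD

/-- stability under inversion gives the product identity -/
theorem pal_of_inv {Ω : Type*} [Field Ω] {n : ℕ} (A B : Fin n → Ω) (hA : ∀ v, A v ≠ 0)
    (hB : ∀ v, B v ≠ 0) (hAB : ∀ v, A v + B v ≠ 0)
    (h : ∃ σ : Equiv.Perm (Fin n), ∀ v, (- B (σ v) / A (σ v)) * (- B v / A v) = 1) (x y : Ω) :
    ∏ v, (x * B v + y * A v) = ∏ v, (x * A v + y * B v) := by
  obtain ⟨σ, hσ⟩ := h
  have h1 : ∀ v, B (σ v) * B v = A (σ v) * A v := by
    intro v
    have h2 := hσ v
    have h3 := hA v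
    have h4 := hA (σ v)
    field_simp at h2
    linear_combination h2
  have key : ∀ x y : Ω, (∏ v, B v) * ∏ v, (x * B v + y * A v) = (∏ v, A v) * ∏ v, (x * A v + y * B v) := by
    intro x y
    calc (∏ v, B v) * ∏ v, (x * B v + y * A v)
        = (∏ v, B (σ v)) * ∏ v, (x * B v + y * A v) := by rw [Equiv.prod_comp σ B]
      _ = ∏ v, (A v * (x * A (σ v) + y * B (σ v))) := by
          rw [← Finset.prod_mul_distrib]
          refine Finset.prod_congr rfl fun v _ => ?_
          linear_combination x * h1 v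
      _ = (∏ v, A v) * ∏ v, (x * A (σ v) + y * B (σ v)) := by rw [Finset.prod_mul_distrib]
      _ = _ := by rw [Equiv.prod_comp σ (fun v => x * A v + y * B v)]
  have h2 := key 1 1
  have h3 : ∏ v, (1 * B v + 1 * A v) = ∏ v, (1 * A v + 1 * B v) :=
    Finset.prod_congr rfl fun v _ => by ring
  have h4 : ∏ v, (1 * A v + 1 * B v) ≠ 0 := Finset.prod_ne_zero_iff.2 fun v _ => by
    rw [one_mul, one_mul]
    exact hAB v
  rw [h3] at h2
  have h5 : ∏ v, B v = ∏ v, A v := mul_right_cancel₀ h4 h2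
  have h6 : ∏ v, A v ≠ 0 := Finset.prod_ne_zero_iff.2 fun v _ => hA v
  have h7 := key x y
  rw [h5] at h7
  exact mul_left_cancel₀ h6 h7

section
variable {K : Type*} [Field K] [NumberField K] {p : ℕ} [Fact p.Prime] {a b c : 𝓞 K}
  {ψ : Fin (Module.finrank ℚ K) → (𝓞 K →+* AlgebraicClosure (ZMod p))}

/-- the places which divide none of `a, b, c`, and those which divide `c` -/
theorem card_ZZ_add_mm (hψ : IsRedFam ψ) :
    (ZZ ψ a b c).card + mm K p c ≤ Module.finrank ℚ K := by
  classical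
  have h1 : (Finset.univ.filter (fun k => ψ k c = 0)).card = mm K p c := by
    rw [← card_zero_eq_mm p hψ c, Nat.card_eq_fintype_card, Fintype.card_subtype]
  rw [← h1, ← Finset.card_union_of_disjoint]
  · refine (Finset.card_le_univ _).trans ?_
    rw [Fintype.card_fin]
  · rw [Finset.disjoint_left]
    intro k hk hk2
    rw [mem_ZZ] at hk
    rw [Finset.mem_filter] at hk2
    exact hk.2.2 hk2.2

/-- if `p` is not in `F_n`, the residues are stable under inversion -/
theorem stable_of_not_bad (hp : 2 * Module.finrank ℚ K + 3 ≤ p)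
    (hn : ¬ FDBad (Module.finrank ℚ K) p) (h : FSol K p a b c) (hcp : CopAt K p a b c)
    (hψ : IsRedFam ψ) :
    ∃ f : Fin (ZZ ψ a b c).card → Fin (Module.finrank ℚ K), Function.Injective f ∧
      (∀ v, f v ∈ ZZ ψ a b c) ∧ (∀ i ∈ ZZ ψ a b c, ∃ v, f v = i) ∧
      ∃ σ : Equiv.Perm (Fin (ZZ ψ a b c).card), ∀ v,
        (- ψ (f (σ v)) b / ψ (f (σ v)) a) * (- ψ (f v) b / ψ (f v) a) = 1 := by
  have hpp : p.Prime := Fact.out
  have hp2 : p ≠ 2 := by omega
  have hcard := card_ZZ_add_mm (a := a) (b := b) (c := c) hψ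
  obtain ⟨f, hf1, hf2, hf3, hD⟩ := (H77FD.datG_of_sol hp2 (by omega) h hcp hψ).fin
  refine ⟨f, hf1, hf2, hf3, ?_⟩
  by_contra hno
  apply hn
  refine ⟨(ZZ ψ a b c).card, by omega, AlgebraicClosure (ZMod p), inferInstance, inferInstance,
    fun v => - ψ (f v) b / ψ (f v) a, fun v => hD.ne0 v (Finset.mem_univ _),
    fun v => hD.ne1 v (Finset.mem_univ _), hno, ?_⟩
  intro m hm hm2 hmp
  by_cases hB : (p : ℤ) ∣ (_root_.bernoulli (p - 1 - m)).num
  · exact Or.inl hB
  · right
    rcases Nat.eq_zero_or_pos (ZZ ψ a b c).card with h0 | h0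
    · have he : IsEmpty (Fin (ZZ ψ a b c).card) := by
        rw [h0]
        infer_instance
      exact Finset.sum_of_isEmpty _
    · have h1 : Even (p - 1) := hpp.even_sub_one hp2
      have heven : Even (p - 1 - m) := (Nat.even_sub (by omega)).mpr (iff_of_true h1 hm)
      have hk := hD.kum (p - 1 - m) heven (by omega) (by omega) (by omega) hB
      rw [← hk]
      refine Finset.sum_congr rfl fun v _ => ?_
      rw [H87FD.el_div_eq_LL' m (by omega) (by omega) _ (hD.ne1 v (Finset.mem_univ _))]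

/-- `PalK K p` for all `K` of degree `n` and `p` not in `F_n` -/
theorem palK_of_not_bad (K : Type*) [Field K] [NumberField K] (p : ℕ) [Fact p.Prime]
    (hp : 2 * Module.finrank ℚ K + 3 ≤ p) (hn : ¬ FDBad (Module.finrank ℚ K) p) :
    Pool.Agent.H73.FD.PalK K p := by
  refine ⟨hp, fun a b c h hcp ψ hψ x y => ?_⟩
  obtain ⟨f, hf1, hf2, hf3, hσ⟩ := stable_of_not_bad hp hn h hcp hψ
  have hZ : ∀ g : Fin (Module.finrank ℚ K) → AlgebraicClosure (ZMod p),
      ∏ i ∈ ZZ ψ a b c, g i = ∏ v, g (f v) := by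
    intro g
    symm
    exact Finset.prod_bij (fun v _ => f v) (fun v _ => hf2 v) (fun u _ v _ huv => hf1 huv)
      (fun i hi => by
        obtain ⟨v, hv⟩ := hf3 i hi
        exact ⟨v, Finset.mem_univ _, hv⟩) (fun _ _ => rfl)
  rw [hZ, hZ]
  have hm : ∀ v, ψ (f v) a ≠ 0 ∧ ψ (f v) b ≠ 0 ∧ ψ (f v) c ≠ 0 := fun v =>
    (mem_ZZ ψ a b c (f v)).1 (hf2 v)
  refine pal_of_inv (fun v => ψ (f v) a) (fun v => ψ (f v) b) (fun v => (hm v).1)
    (fun v => (hm v).2.1) (fun v => ?_) hσ x y
  intro h0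
  have h1 := fsol_hom h (ψ (f v))
  rw [h0, zero_add] at h1
  exact (hm v).2.2 h1

end

end H45FD
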